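import Mathlib

/-!
# The monomial test for the rescaled operator of a Hermite diagonal operator fails

Let `Θ = x D - D² / 2`, so that `Θ Hₙ = n Hₙ`, and let `T = α Θ² + β Θ + δ`, a Hermite diagonal differential
operator with `γₙ = α n² + β n + δ`. Its rescaled operator `W` satisfies
`W[xⁿ] = Aₙ xⁿ - Bₙ xⁿ⁻² + Cₙ xⁿ⁻⁴`, `Aₙ = α (n² + n) / 4 + β n / 2 + δ`, `Bₙ = n (n - 1) (α n + β) / 8`,
`Cₙ = α n (n - 1) (n - 2) (n - 3) / 64`.

* For `T = Θ² + 1` (`γₙ = n² + 1`, positive and increasing) all the polynomials `W[xⁿ]` are hyperbolic, but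
  `W[(x + 3)²] = (5 x² + 18 x + 17) / 2` is not.
* For `T = 5 Θ² - 11 Θ + 3` all the polynomials `W[xⁿ]` are hyperbolic, but neither
  `W[x² - 1] = - x² / 2 - 11 / 4` nor `T[x²] = x² + 1` is hyperbolic.
-/

set_option autoImplicit false

namespace Pool.Agent.Results.MP_fcf092_an.MonomialTestFails

open Polynomial

/-- A real polynomial is hyperbolic if it is zero or all its complex zeros are real. -/
def Hyperbolic (p : ℝ[X]) : Prop := p = 0 ∨ ∀ z : ℂ, aeval z p = 0 → z.im = 0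

/-- The Hermite polynomials: `H₀ = 1`, `Hₙ₊₁ = 2 x Hₙ - Hₙ'`
(that is `Hₙ = (-1)ⁿ exp(x²) Dⁿ exp(-x²)`). -/
noncomputable def H : ℕ → ℝ[X]
  | 0 => 1
  | n + 1 => 2 * X * H n - derivative (H n)

/-- The operator `∑ Q_k D^k` (a finite sum for each polynomial). -/
noncomputable def op (Q : ℕ → ℝ[X]) (p : ℝ[X]) : ℝ[X] := ∑ᶠ k, Q k * derivative^[k] p

/-- `T = ∑ Q_k D^k` is a Hermite diagonal differential operator with the eigenvalues `γₙ`. -/
def HermiteDiagonal (Q : ℕ → ℝ[X]) (γ : ℕ → ℝ) : Prop := ∀ n, op Q (H n) = C (γ n) * H n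

/-- The coefficients of the rescaled operator `W = ∑ 2^(-k) Q_k D^k`. -/
noncomputable def rescale (Q : ℕ → ℝ[X]) : ℕ → ℝ[X] := fun k => C ((1 / 2 : ℝ) ^ k) * Q k

/-- `∑ Q_k D^k` preserves hyperbolicity. -/
def Preserver (Q : ℕ → ℝ[X]) : Prop := ∀ p, Hyperbolic p → Hyperbolic (op Q p)

/-! ### The operators -/

/-- The coefficients of `α Θ² + β Θ + δ`. -/
noncomputable def q (α β δ : ℝ) : ℕ → ℝ[X]
  | 0 => C δ
  | 1 => C (α + β) * X
  | 2 => C α * X ^ 2 - C (α + β / 2)
  | 3 => - (C α * X)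
  | 4 => C (α / 4)
  | _ => 0

theorem op_of_five (Q : ℕ → ℝ[X]) (hQ : ∀ k, 5 ≤ k → Q k = 0) (p : ℝ[X]) :
    op Q p = Q 0 * p + Q 1 * derivative p + Q 2 * derivative (derivative p) +
      Q 3 * derivative (derivative (derivative p)) +
      Q 4 * derivative (derivative (derivative (derivative p))) := by
  have h : (Function.support fun k => Q k * derivative^[k] p) ⊆ ((Finset.range 5 : Finset ℕ) : Set ℕ) := by
    intro k hk
    by_contra hk5
    apply hk
    have : 5 ≤ k := by simpa using hk5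
    simp [hQ k this]
  rw [op, finsum_eq_sum_of_support_subset _ h]
  simp [Finset.sum_range_succ]

theorem derivative_H (n : ℕ) : derivative (H (n + 1)) = C (2 * ((n : ℝ) + 1)) * H n := by
  induction n with
  | zero =>
    simp [H]
    rfl
  | succ n ih =>
    have h1 : derivative (H (n + 1 + 1)) =
        2 * H (n + 1) + 2 * X * derivative (H (n + 1)) - derivative (derivative (H (n + 1))) := by
      show derivative (2 * X * H (n + 1) - derivative (H (n + 1))) = _
      simp only [derivative_sub, derivative_mul, derivative_X, derivative_ofNat]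
      ring
    have h2 : H (n + 1) = 2 * X * H n - derivative (H n) := rfl
    rw [h1, ih, derivative_mul, derivative_C]
    have h3 : 2 * X * (C (2 * ((n : ℝ) + 1)) * H n) - (0 * H n + C (2 * ((n : ℝ) + 1)) * derivative (H n)) =
        C (2 * ((n : ℝ) + 1)) * H (n + 1) := by
      rw [h2]
      ring
    have h4 : (2 : ℝ[X]) = C (2 : ℝ) := rfl
    calc 2 * H (n + 1) + 2 * X * (C (2 * ((n : ℝ) + 1)) * H n) -
          (0 * H n + C (2 * ((n : ℝ) + 1)) * derivative (H n)) =
          2 * H (n + 1) + (2 * X * (C (2 * ((n : ℝ) + 1)) * H n) -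
            (0 * H n + C (2 * ((n : ℝ) + 1)) * derivative (H n))) := by ring
      _ = (C 2 + C (2 * ((n : ℝ) + 1))) * H (n + 1) := by rw [h3, h4]; ring
      _ = _ := by
        rw [← C_add]
        congr 2
        push_cast
        ring

/-- The operator `Θ`. -/
noncomputable def Th (p : ℝ[X]) : ℝ[X] := X * derivative p - C (1 / 2) * derivative (derivative p)

theorem Th_H (n : ℕ) : Th (H n) = C (n : ℝ) * H n := by
  cases n with
  | zero => simp [Th, H]
  | succ n =>
    rw [Th, derivative_H, derivative_mul, derivative_C]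
    have h2 : H (n + 1) = 2 * X * H n - derivative (H n) := rfl
    have h4 : (2 : ℝ[X]) = C (2 : ℝ) := rfl
    rw [h2, h4]
    have e1 : C (2 * ((n : ℝ) + 1)) = C 2 * C ((n : ℝ) + 1) := by rw [← C_mul]
    have e2 : C (1 / 2 : ℝ) * C (2 : ℝ) = 1 := by
      rw [← C_mul]
      norm_num
    rw [e1]
    push_cast
    linear_combination (- C ((n : ℝ) + 1) * derivative (H n)) * e2

theorem Th_C_mul (a : ℝ) (p : ℝ[X]) : Th (C a * p) = C a * Th p := by
  simp only [Th, derivative_C_mul]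
  ring

theorem op_q (α β δ : ℝ) (p : ℝ[X]) :
    op (q α β δ) p = C α * Th (Th p) + C β * Th p + C δ * p := by
  rw [op_of_five _ (fun k hk => by
    obtain ⟨m, rfl⟩ := Nat.exists_eq_add_of_le hk
    rw [add_comm]
    rfl)]
  show C δ * p + (C (α + β) * X) * derivative p + (C α * X ^ 2 - C (α + β / 2)) * derivative (derivative p) +
      (-(C α * X)) * derivative (derivative (derivative p)) +
      C (α / 4) * derivative (derivative (derivative (derivative p))) = _
  have e : (C (1 / 2 : ℝ) : ℝ[X]) * C (1 / 2) = C (1 / 4) := by rw [← C_mul]; norm_num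
  have e2 : (C (1 / 2 : ℝ) : ℝ[X]) + C (1 / 2) = 1 := by rw [← C_add]; norm_num
  have e3 : (C (α + β / 2) : ℝ[X]) = C α + C (1 / 2) * C β := by
    rw [← C_mul, ← C_add]
    congr 1
    ring
  have e4 : (C (α / 4) : ℝ[X]) = C (1 / 4) * C α := by
    rw [← C_mul]
    congr 1
    ring
  simp only [Th, derivative_sub, derivative_mul, derivative_X, derivative_C, C_add, e3, e4, derivative_add,
    zero_mul, one_mul, zero_add]
  linear_combination (C α * derivative (derivative p) + C α * X * derivative (derivative (derivative p))) * e2 -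
    C α * derivative (derivative (derivative (derivative p))) * e

theorem hermite_diagonal (α β δ : ℝ) :
    HermiteDiagonal (q α β δ) fun n => α * (n : ℝ) ^ 2 + β * n + δ := by
  intro n
  rw [op_q, Th_H, Th_C_mul, Th_H]
  simp only [C_add, C_mul, C_pow]
  ring

/-! ### The rescaled operator on monomials -/

theorem op_rescale (α β δ : ℝ) (p : ℝ[X]) :
    op (rescale (q α β δ)) p = C δ * p + C ((α + β) / 2) * X * derivative p +
      (C (α / 4) * X ^ 2 - C ((α + β / 2) / 4)) * derivative (derivative p) -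
      C (α / 8) * X * derivative (derivative (derivative p)) +
      C (α / 64) * derivative (derivative (derivative (derivative p))) := by
  rw [op_of_five _ (fun k hk => by
    obtain ⟨m, rfl⟩ := Nat.exists_eq_add_of_le hk
    rw [rescale, add_comm]
    show C _ * (0 : ℝ[X]) = 0
    rw [mul_zero])]
  show C ((1 / 2 : ℝ) ^ 0) * C δ * p + C ((1 / 2 : ℝ) ^ 1) * (C (α + β) * X) * derivative p +
      C ((1 / 2 : ℝ) ^ 2) * (C α * X ^ 2 - C (α + β / 2)) * derivative (derivative p) +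
      C ((1 / 2 : ℝ) ^ 3) * (-(C α * X)) * derivative (derivative (derivative p)) +
      C ((1 / 2 : ℝ) ^ 4) * C (α / 4) * derivative (derivative (derivative (derivative p))) = _
  have e0 : (C ((1 / 2 : ℝ) ^ 0) : ℝ[X]) = 1 := by norm_num
  have e1 : (C ((α + β) / 2) : ℝ[X]) = C ((1 / 2 : ℝ) ^ 1) * C (α + β) := by
    rw [← C_mul]; congr 1; ring
  have e2 : (C (α / 4) : ℝ[X]) = C ((1 / 2 : ℝ) ^ 2) * C α := by
    rw [← C_mul]; congr 1; ring
  have e3 : (C ((α + β / 2) / 4) : ℝ[X]) = C ((1 / 2 : ℝ) ^ 2) * C (α + β / 2) := by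
    rw [← C_mul]; congr 1; ring
  have e4 : (C (α / 8) : ℝ[X]) = C ((1 / 2 : ℝ) ^ 3) * C α := by
    rw [← C_mul]; congr 1; ring
  have e5 : (C (α / 64) : ℝ[X]) = C ((1 / 2 : ℝ) ^ 4) * C (α / 4) := by
    rw [← C_mul]; congr 1; ring
  rw [e0, e1, e3, e4, e5, e2]
  ring

/-- The coefficient of `xⁿ` in `W[xⁿ]`. -/
noncomputable def cA (α β δ : ℝ) (n : ℝ) : ℝ := α * (n ^ 2 + n) / 4 + β * n / 2 + δ

/-- The coefficient of `- xⁿ⁻²` in `W[xⁿ]`. -/
noncomputable def cB (α β : ℝ) (n : ℝ) : ℝ := n * (n - 1) * (α * n + β) / 8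

/-- The coefficient of `xⁿ⁻⁴` in `W[xⁿ]`. -/
noncomputable def cC (α : ℝ) (n : ℝ) : ℝ := α * (n * (n - 1) * (n - 2) * (n - 3)) / 64

theorem op_X_pow (α β δ : ℝ) (m : ℕ) :
    op (rescale (q α β δ)) (X ^ (m + 4)) = C (cA α β δ (m + 4)) * X ^ (m + 4) -
      C (cB α β (m + 4)) * X ^ (m + 2) + C (cC α (m + 4)) * X ^ m := by
  rw [op_rescale]
  have d1 : derivative (X ^ (m + 4) : ℝ[X]) = C ((m : ℝ) + 4) * X ^ (m + 3) := by
    rw [derivative_X_pow]
    push_cast
    simp
  have d2 : derivative (C ((m : ℝ) + 4) * X ^ (m + 3) : ℝ[X]) =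
      C (((m : ℝ) + 4) * (m + 3)) * X ^ (m + 2) := by
    rw [derivative_C_mul, derivative_X_pow, ← mul_assoc, ← C_mul]
    push_cast
    simp
  have d3 : derivative (C (((m : ℝ) + 4) * (m + 3)) * X ^ (m + 2) : ℝ[X]) =
      C (((m : ℝ) + 4) * (m + 3) * (m + 2)) * X ^ (m + 1) := by
    rw [derivative_C_mul, derivative_X_pow, ← mul_assoc, ← C_mul]
    push_cast
    simp
  have d4 : derivative (C (((m : ℝ) + 4) * (m + 3) * (m + 2)) * X ^ (m + 1) : ℝ[X]) =
      C (((m : ℝ) + 4) * (m + 3) * (m + 2) * (m + 1)) * X ^ m := by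
    rw [derivative_C_mul, derivative_X_pow, ← mul_assoc, ← C_mul]
    push_cast
    simp
  rw [d1, d2, d3, d4]
  have hA : (C (cA α β δ (m + 4)) : ℝ[X]) = C δ + C ((α + β) / 2) * C ((m : ℝ) + 4) +
      C (α / 4) * C (((m : ℝ) + 4) * (m + 3)) := by
    rw [← C_mul, ← C_mul, ← C_add, ← C_add, cA]; congr 1; ring
  have hB : (C (cB α β (m + 4)) : ℝ[X]) = C ((α + β / 2) / 4) * C (((m : ℝ) + 4) * (m + 3)) +
      C (α / 8) * C (((m : ℝ) + 4) * (m + 3) * (m + 2)) := by
    rw [← C_mul, ← C_mul, ← C_add, cB]; congr 1; ring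
  have hC : (C (cC α (m + 4)) : ℝ[X]) = C (α / 64) * C (((m : ℝ) + 4) * (m + 3) * (m + 2) * (m + 1)) := by
    rw [← C_mul, cC]; congr 1; ring
  rw [hA, hB, hC]
  ring

theorem op_one (α β δ : ℝ) : op (rescale (q α β δ)) 1 = C δ := by
  rw [op_rescale]
  simp

theorem op_X (α β δ : ℝ) : op (rescale (q α β δ)) X = C (cA α β δ 1) * X := by
  rw [op_rescale]
  simp only [derivative_X, derivative_one, mul_one, map_zero, mul_zero, add_zero, sub_zero]
  have : (C (cA α β δ 1) : ℝ[X]) = C δ + C ((α + β) / 2) := by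
    rw [← C_add, cA]; congr 1; ring
  rw [this]
  ring

theorem op_X2 (α β δ : ℝ) :
    op (rescale (q α β δ)) (X ^ 2) = C (cA α β δ 2) * X ^ 2 - C (cB α β 2) := by
  rw [op_rescale]
  have d1 : derivative (X ^ 2 : ℝ[X]) = C 2 * X := by
    rw [derivative_X_pow]
    simp
  have d2 : derivative (C (2 : ℝ) * X : ℝ[X]) = C 2 := by simp
  rw [d1, d2]
  simp only [derivative_C, mul_zero, map_zero, add_zero, sub_zero]
  have h1 : (C (cA α β δ 2) : ℝ[X]) = C δ + C ((α + β) / 2) * C 2 + C (α / 4) * C 2 := by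
    rw [← C_mul, ← C_mul, ← C_add, ← C_add, cA]; congr 1; ring
  have h2 : (C (cB α β 2) : ℝ[X]) = C ((α + β / 2) / 4) * C 2 := by
    rw [← C_mul, cB]; congr 1; ring
  rw [h1, h2]
  ring

theorem op_X3 (α β δ : ℝ) :
    op (rescale (q α β δ)) (X ^ 3) = C (cA α β δ 3) * X ^ 3 - C (cB α β 3) * X := by
  rw [op_rescale]
  have d1 : derivative (X ^ 3 : ℝ[X]) = C 3 * X ^ 2 := by
    rw [derivative_X_pow]
    simp
  have d2 : derivative (C (3 : ℝ) * X ^ 2 : ℝ[X]) = C 6 * X := by
    rw [derivative_C_mul, derivative_X_pow, ← mul_assoc, ← C_mul]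
    norm_num
  have d3 : derivative (C (6 : ℝ) * X : ℝ[X]) = C 6 := by simp
  rw [d1, d2, d3]
  simp only [derivative_C, mul_zero, add_zero]
  have h1 : (C (cA α β δ 3) : ℝ[X]) = C δ + C ((α + β) / 2) * C 3 + C (α / 4) * C 6 := by
    rw [← C_mul, ← C_mul, ← C_add, ← C_add, cA]; congr 1; ring
  have h2 : (C (cB α β 3) : ℝ[X]) = C ((α + β / 2) / 4) * C 6 + C (α / 8) * C 6 := by
    rw [← C_mul, ← C_mul, ← C_add, cB]; congr 1; ring
  rw [h1, h2]
  ring

/-! ### Hyperbolicity -/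

/-- A complex number with a nonnegative real square is real. -/
theorem real_of_sq (z : ℂ) (r : ℝ) (hr : 0 ≤ r) (h : z ^ 2 = r) : z.im = 0 := by
  have h1 := congrArg Complex.re h
  have h2 := congrArg Complex.im h
  rw [pow_two, Complex.mul_re, Complex.ofReal_re] at h1
  rw [pow_two, Complex.mul_im, Complex.ofReal_im] at h2
  have h3 : z.re * z.im = 0 := by linarith
  rcases mul_eq_zero.1 h3 with h4 | h4
  · rw [h4] at h1
    nlinarith
  · exact h4

/-- The zeros of `A u² - B u + C`. -/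
theorem real_of_quartic (A B D : ℝ) (hA : 0 < A) (hB : 0 ≤ B) (hD : 0 ≤ D) (hdisc : 4 * A * D ≤ B ^ 2)
    (z : ℂ) (h : A * z ^ 4 - B * z ^ 2 + D = 0) : z.im = 0 := by
  set s := Real.sqrt (B ^ 2 - 4 * A * D) with hs
  have hs2 : s ^ 2 = B ^ 2 - 4 * A * D := Real.sq_sqrt (by linarith)
  have hs0 : 0 ≤ s := Real.sqrt_nonneg _
  have hsB : s ≤ B := by
    have : 0 ≤ A * D := by positivity
    nlinarith
  have hs2' : (s : ℂ) ^ 2 = (B : ℂ) ^ 2 - 4 * A * D := by exact_mod_cast hs2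
  have hA' : (A : ℂ) ≠ 0 := by exact_mod_cast hA.ne'
  have key : (2 * A * z ^ 2 - B - s) * (2 * A * z ^ 2 - B + s) = 0 := by
    linear_combination 4 * (A : ℂ) * h - hs2'
  rcases mul_eq_zero.1 key with h1 | h1
  · refine real_of_sq z ((B + s) / (2 * A)) (by positivity) ?_
    push_cast
    field_simp
    linear_combination h1
  · refine real_of_sq z ((B - s) / (2 * A)) (div_nonneg (by linarith) (by positivity)) ?_
    push_cast
    field_simp
    linear_combination h1

theorem hyp_four (m : ℕ) (A B D : ℝ) (hA : 0 < A) (hB : 0 ≤ B) (hD : 0 ≤ D)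
    (hdisc : 4 * A * D ≤ B ^ 2) :
    Hyperbolic (C A * X ^ (m + 4) - C B * X ^ (m + 2) + C D * X ^ m) := by
  right
  intro z hz
  have h1 : z ^ m * (A * z ^ 4 - B * z ^ 2 + D) = 0 := by
    simp only [map_add, map_sub, map_mul, map_pow, aeval_X, aeval_C, Complex.coe_algebraMap] at hz
    linear_combination hz
  rcases mul_eq_zero.1 h1 with h2 | h2
  · have : z = 0 := eq_zero_of_pow_eq_zero h2
    rw [this]
    rfl
  · exact real_of_quartic A B D hA hB hD hdisc z h2

theorem hyp_C (a : ℝ) : Hyperbolic (C a) := by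
  by_cases ha : a = 0
  · left
    rw [ha, C_0]
  · right
    intro z hz
    simp at hz
    exact absurd hz ha

theorem hyp_CX (a : ℝ) : Hyperbolic (C a * X) := by
  by_cases ha : a = 0
  · left
    rw [ha, C_0, zero_mul]
  · right
    intro z hz
    simp at hz
    rcases hz with hz | hz
    · exact absurd hz ha
    · rw [hz]
      rfl

theorem hyp_two (A B : ℝ) (hA : A ≠ 0) (hB : 0 ≤ B / A) : Hyperbolic (C A * X ^ 2 - C B) := by
  right
  intro z hz
  have hA' : (A : ℂ) ≠ 0 := by exact_mod_cast hA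
  refine real_of_sq z (B / A) hB ?_
  simp only [map_sub, map_mul, map_pow, aeval_X, aeval_C, Complex.coe_algebraMap] at hz
  push_cast
  field_simp
  linear_combination hz

theorem hyp_three (A B : ℝ) (hA : A ≠ 0) (hB : 0 ≤ B / A) : Hyperbolic (C A * X ^ 3 - C B * X) := by
  right
  intro z hz
  have hA' : (A : ℂ) ≠ 0 := by exact_mod_cast hA
  have h1 : z * (A * z ^ 2 - B) = 0 := by
    simp only [map_sub, map_mul, map_pow, aeval_X, aeval_C, Complex.coe_algebraMap] at hz
    linear_combination hz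
  rcases mul_eq_zero.1 h1 with h2 | h2
  · rw [h2]
    rfl
  · refine real_of_sq z (B / A) hB ?_
    push_cast
    field_simp
    linear_combination h2

/-- A quadratic polynomial without real zeros is not hyperbolic. -/
theorem not_hyp (a b c : ℝ) (ha : a ≠ 0) (h : b ^ 2 - 4 * a * c < 0) :
    ¬ Hyperbolic (C a * X ^ 2 + C b * X + C c) := by
  rintro (h0 | h0)
  · have := congrArg (fun p => coeff p 2) h0
    simp only [coeff_add, coeff_C_mul, coeff_X_pow, coeff_X, coeff_C, coeff_zero] at this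
    norm_num at this
    exact ha this
  · set s := Real.sqrt (4 * a * c - b ^ 2) with hs
    have hs2 : s ^ 2 = 4 * a * c - b ^ 2 := Real.sq_sqrt (by linarith)
    have hs0 : 0 < s := Real.sqrt_pos.2 (by linarith)
    have hs2' : (s : ℂ) ^ 2 = 4 * (a : ℂ) * c - b ^ 2 := by exact_mod_cast hs2
    have ha' : (a : ℂ) ≠ 0 := by exact_mod_cast ha
    have h1 := h0 ((-b + s * Complex.I) / (2 * a)) (by
      simp only [map_add, map_mul, map_pow, aeval_X, aeval_C, Complex.coe_algebraMap]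
      field_simp
      linear_combination (-1 : ℂ) * hs2' + (s : ℂ) ^ 2 * Complex.I_sq)
    have h2 : ((-(b : ℂ) + s * Complex.I) / (2 * a)).im = s / (2 * a) := by
      have : (-(b : ℂ) + s * Complex.I) / (2 * a) = ((-b / (2 * a) : ℝ) : ℂ) + ((s / (2 * a) : ℝ) : ℂ) * Complex.I := by
        push_cast
        field_simp
      rw [this, Complex.add_im, Complex.ofReal_im, Complex.mul_I_im, Complex.ofReal_re, zero_add]
    rw [h2] at h1
    have : s / (2 * a) ≠ 0 := by positivity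
    exact this h1

theorem all_hyp (α β δ : ℝ) (h1 : cA α β δ 2 ≠ 0) (h2 : 0 ≤ cB α β 2 / cA α β δ 2)
    (h3 : cA α β δ 3 ≠ 0) (h4 : 0 ≤ cB α β 3 / cA α β δ 3)
    (h5 : ∀ t : ℝ, 4 ≤ t → 0 < cA α β δ t ∧ 0 ≤ cB α β t ∧ 0 ≤ cC α t ∧
      4 * cA α β δ t * cC α t ≤ cB α β t ^ 2) (n : ℕ) :
    Hyperbolic (op (rescale (q α β δ)) (X ^ n)) := by
  match n with
  | 0 =>
    rw [pow_zero, op_one]
    exact hyp_C δ
  | 1 =>
    rw [pow_one, op_X]
    exact hyp_CX _
  | 2 =>
    rw [op_X2]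
    exact hyp_two _ _ h1 h2
  | 3 =>
    rw [op_X3]
    exact hyp_three _ _ h3 h4
  | m + 4 =>
    rw [op_X_pow]
    obtain ⟨c1, c2, c3, c4⟩ := h5 ((m : ℝ) + 4) (by
      have : (0 : ℝ) ≤ m := Nat.cast_nonneg m
      linarith)
    exact hyp_four m _ _ _ c1 c2 c3 c4

theorem disc (α β δ t : ℝ) : cB α β t ^ 2 - 4 * cA α β δ t * cC α t =
    t * (t - 1) / 64 * (3 * α ^ 2 * t ^ 3 + (β ^ 2 + 8 * α * β - 4 * α * δ - α ^ 2) * t ^ 2 +
      (20 * α * δ - β ^ 2 - 12 * α * β - 6 * α ^ 2) * t - 24 * α * δ) := by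
  unfold cA cB cC
  ring

theorem op_quad (α β δ a b c : ℝ) : op (rescale (q α β δ)) (C a * X ^ 2 + C b * X + C c) =
    C (a * cA α β δ 2) * X ^ 2 + C (b * cA α β δ 1) * X + C (c * δ - a * cB α β 2) := by
  have h : op (rescale (q α β δ)) (C a * X ^ 2 + C b * X + C c) =
      C a * op (rescale (q α β δ)) (X ^ 2) + C b * op (rescale (q α β δ)) X +
        C c * op (rescale (q α β δ)) 1 := by
    rw [op_rescale, op_rescale, op_rescale, op_rescale]
    simp only [derivative_add, derivative_C_mul, derivative_C, derivative_one, derivative_zero]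
    ring
  rw [h, op_X2, op_X, op_one]
  simp only [C_mul, C_sub]
  ring

theorem Th_quad (a b c : ℝ) : Th (C a * X ^ 2 + C b * X + C c) = C (2 * a) * X ^ 2 + C b * X + C (-a) := by
  have d1 : derivative (C a * X ^ 2 + C b * X + C c : ℝ[X]) = C (2 * a) * X + C b := by
    rw [derivative_add, derivative_add, derivative_C, derivative_C_mul, derivative_C_mul, derivative_X,
      derivative_X_pow, ← mul_assoc, ← C_mul]
    norm_num
    ring_nf
  have d2 : derivative (C (2 * a) * X + C b : ℝ[X]) = C (2 * a) := by simp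
  have e : (C (1 / 2 : ℝ) * C (2 * a) : ℝ[X]) = C a := by
    rw [← C_mul]; congr 1; ring
  rw [Th, d1, d2, e, C_neg]
  ring

theorem opT_quad (α β δ a b c : ℝ) : op (q α β δ) (C a * X ^ 2 + C b * X + C c) =
    C (a * (4 * α + 2 * β + δ)) * X ^ 2 + C (b * (α + β + δ)) * X + C (c * δ - a * (2 * α + β)) := by
  rw [op_q, Th_quad, Th_quad]
  simp only [C_mul, C_sub, C_add, C_neg]
  have h2 : (C (2 : ℝ) : ℝ[X]) * C 2 = C 4 := by rw [← C_mul]; norm_num
  linear_combination (C α * C a * X ^ 2) * h2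

theorem hyp_sq (t : ℝ) : Hyperbolic ((X + C t) ^ 2) := by
  right
  intro z hz
  simp only [map_pow, map_add, aeval_X, aeval_C, Complex.coe_algebraMap] at hz
  have h1 := eq_zero_of_pow_eq_zero hz
  have h2 := congrArg Complex.im h1
  simpa using h2

theorem sq_eq (t : ℝ) : ((X + C t) ^ 2 : ℝ[X]) = C 1 * X ^ 2 + C (2 * t) * X + C (t ^ 2) := by
  rw [C_mul, C_pow, C_1, show (C 2 : ℝ[X]) = 2 from rfl]
  ring

/-- **Disproof of Q1.**
(1) For `T = Θ² + 1`, with the positive and increasing eigenvalues `γₙ = n² + 1`, all `W[xⁿ]` are hyperbolic,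
but `W` is not a hyperbolicity preserver (and neither is `T`).
(2) For `T = 5 Θ² - 11 Θ + 3` all `W[xⁿ]` are hyperbolic, but `W` is not a hyperbolicity preserver, and
`T[x²]` is not hyperbolic. -/
theorem result :
    (∃ (Q : ℕ → ℝ[X]) (γ : ℕ → ℝ), HermiteDiagonal Q γ ∧ (∀ n, 0 < γ n) ∧ StrictMono γ ∧
      (∀ n, Hyperbolic (op (rescale Q) (X ^ n))) ∧ ¬ Preserver (rescale Q) ∧ ¬ Preserver Q) ∧
    (∃ (Q : ℕ → ℝ[X]) (γ : ℕ → ℝ), HermiteDiagonal Q γ ∧
      (∀ n, Hyperbolic (op (rescale Q) (X ^ n))) ∧ ¬ Preserver (rescale Q) ∧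
      ¬ Hyperbolic (op Q (X ^ 2))) := by
  refine ⟨⟨q 1 0 1, _, hermite_diagonal 1 0 1, fun n => ?_, fun m n hmn => ?_, ?_, ?_, ?_⟩,
    ⟨q 5 (-11) 3, _, hermite_diagonal 5 (-11) 3, ?_, ?_, ?_⟩⟩
  · positivity
  · have : (m : ℝ) < n := by exact_mod_cast hmn
    have h0 : (0 : ℝ) ≤ m := Nat.cast_nonneg m
    show 1 * (m : ℝ) ^ 2 + 0 * m + 1 < 1 * (n : ℝ) ^ 2 + 0 * n + 1
    nlinarith
  · refine all_hyp 1 0 1 (by unfold cA; norm_num) (by unfold cA cB; norm_num) (by unfold cA; norm_num)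
      (by unfold cA cB; norm_num) fun t ht => ?_
    obtain ⟨s, hs, rfl⟩ : ∃ s, 0 ≤ s ∧ t = 4 + s := ⟨t - 4, by linarith, by ring⟩
    refine ⟨by unfold cA; positivity, ?_, ?_, ?_⟩
    · have : cB 1 0 (4 + s) = (4 + s) * (3 + s) * (4 + s) / 8 := by unfold cB; ring
      rw [this]
      positivity
    · have : cC 1 (4 + s) = (4 + s) * (3 + s) * (2 + s) * (1 + s) / 64 := by unfold cC; ring
      rw [this]
      positivity
    · have h := disc 1 0 1 (4 + s)
      have h2 : cB 1 0 (4 + s) ^ 2 - 4 * cA 1 0 1 (4 + s) * cC 1 (4 + s) =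
          (4 + s) * (3 + s) / 64 * (144 + 118 * s + 31 * s ^ 2 + 3 * s ^ 3) := by
        rw [h]
        ring
      have h3 : 0 ≤ (4 + s) * (3 + s) / 64 * (144 + 118 * s + 31 * s ^ 2 + 3 * s ^ 3) := by positivity
      linarith
  · intro h
    have h1 := h _ (hyp_sq 3)
    rw [sq_eq, op_quad] at h1
    exact not_hyp _ _ _ (by unfold cA; norm_num) (by unfold cA cB; norm_num) h1
  · intro h
    have h1 := h _ (hyp_sq 4)
    rw [sq_eq, opT_quad] at h1
    exact not_hyp _ _ _ (by norm_num) (by norm_num) h1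
  · refine all_hyp 5 (-11) 3 (by unfold cA; norm_num) (by unfold cA cB; norm_num) (by unfold cA; norm_num)
      (by unfold cA cB; norm_num) fun t ht => ?_
    obtain ⟨s, hs, rfl⟩ : ∃ s, 0 ≤ s ∧ t = 4 + s := ⟨t - 4, by linarith, by ring⟩
    refine ⟨?_, ?_, ?_, ?_⟩
    · have : cA 5 (-11) 3 (4 + s) = (8 + 5 * s) * (3 + s) / 4 := by unfold cA; ring
      rw [this]
      positivity
    · have : cB 5 (-11) (4 + s) = (4 + s) * (3 + s) * (9 + 5 * s) / 8 := by unfold cB; ring
      rw [this]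
      positivity
    · have : cC 5 (4 + s) = 5 * ((4 + s) * (3 + s) * (2 + s) * (1 + s)) / 64 := by unfold cC; ring
      rw [this]
      positivity
    · have h := disc 5 (-11) 3 (4 + s)
      have h2 : cB 5 (-11) (4 + s) ^ 2 - 4 * cA 5 (-11) 3 (4 + s) * cC 5 (4 + s) =
          (4 + s) * (3 + s) / 64 * (732 + 1057 * s + 496 * s ^ 2 + 75 * s ^ 3) := by
        rw [h]
        ring
      have h3 : 0 ≤ (4 + s) * (3 + s) / 64 * (732 + 1057 * s + 496 * s ^ 2 + 75 * s ^ 3) := by positivity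
      linarith
  · intro h
    have hp : Hyperbolic (C 1 * X ^ 2 + C 0 * X + C (-1)) := by
      have := hyp_two 1 1 (by norm_num) (by norm_num)
      have e : (C 1 * X ^ 2 + C 0 * X + C (-1) : ℝ[X]) = C 1 * X ^ 2 - C 1 := by
        rw [C_neg, C_0]
        ring
      rw [e]
      exact this
    have h1 := h _ hp
    rw [op_quad] at h1
    exact not_hyp _ _ _ (by unfold cA; norm_num) (by unfold cA cB; norm_num) h1
  · intro h
    have e : (X ^ 2 : ℝ[X]) = C 1 * X ^ 2 + C 0 * X + C 0 := by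
      rw [C_1, C_0]
      ring
    rw [e, opT_quad] at h
    exact not_hyp _ _ _ (by norm_num) (by norm_num) h

end Pool.Agent.Results.MP_fcf092_an.MonomialTestFails
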